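import Pool.Agent.Q16.MX.ISO

set_option autoImplicit false

/-!
# Project MX: job CNT2
-/

namespace Pool.Agent.Q16.MX

open Finset Module Q44.MX

section gen

variable {M : Type} [AddCommGroup M] [Module (ZMod 2) M] [Finite M]

/-- codimensions add -/
lemma fr_inf (L A B : Submodule (ZMod 2) M) (hA : A ≤ L) (hB : B ≤ L) (a b : ℕ)
    (h1 : finrank (ZMod 2) L ≤ a + finrank (ZMod 2) A) (h2 : finrank (ZMod 2) L ≤ b + finrank (ZMod 2) B) :
    finrank (ZMod 2) L ≤ a + b + finrank (ZMod 2) (A ⊓ B : Submodule (ZMod 2) M) := by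
  have h3 := Submodule.finrank_sup_add_finrank_inf_eq A B
  have h4 : finrank (ZMod 2) (A ⊔ B : Submodule (ZMod 2) M) ≤ finrank (ZMod 2) L :=
    Submodule.finrank_mono (sup_le hA hB)
  omega

/-- codimension of a preimage -/
lemma fr_pre (f : M →ₗ[ZMod 2] M) (L A K : Submodule (ZMod 2) M) (hA : A ≤ L.comap f) (hK : K ≤ L) :
    finrank (ZMod 2) A + finrank (ZMod 2) K ≤
      finrank (ZMod 2) (A ⊓ K.comap f : Submodule (ZMod 2) M) + finrank (ZMod 2) L := by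
  have h1 := LinearMap.finrank_range_add_finrank_ker ((K.mkQ.comp f).domRestrict A)
  have h2 : finrank (ZMod 2) (LinearMap.ker ((K.mkQ.comp f).domRestrict A)) ≤
      finrank (ZMod 2) (A ⊓ K.comap f : Submodule (ZMod 2) M) := by
    let g : LinearMap.ker ((K.mkQ.comp f).domRestrict A) →ₗ[ZMod 2]
        (A ⊓ K.comap f : Submodule (ZMod 2) M) :=
      LinearMap.codRestrict _ (A.subtype.comp (Submodule.subtype _)) (by
        rintro ⟨⟨x, hx⟩, hx2⟩
        refine ⟨hx, ?_⟩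
        have h3 : K.mkQ (f x) = 0 := hx2
        exact (Submodule.Quotient.mk_eq_zero K).1 h3)
    apply LinearMap.finrank_le_finrank_of_injective (f := g)
    intro x y hxy
    apply Subtype.ext
    apply Subtype.ext
    have h := congrArg Subtype.val hxy
    exact h
  have h3 : LinearMap.range ((K.mkQ.comp f).domRestrict A) ≤ LinearMap.range (K.mkQ.domRestrict L) := by
    rintro _ ⟨x, rfl⟩
    exact ⟨⟨f x, hA x.2⟩, rfl⟩
  have h4 := Submodule.finrank_mono h3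
  have h5 := LinearMap.finrank_range_add_finrank_ker (K.mkQ.domRestrict L)
  have h6 : finrank (ZMod 2) K ≤ finrank (ZMod 2) (LinearMap.ker (K.mkQ.domRestrict L)) := by
    let g : K →ₗ[ZMod 2] LinearMap.ker (K.mkQ.domRestrict L) :=
      LinearMap.codRestrict _ (Submodule.inclusion hK) (by
        intro x
        exact (Submodule.Quotient.mk_eq_zero K).2 x.2)
    apply LinearMap.finrank_le_finrank_of_injective (f := g)
    intro x y hxy
    apply Subtype.ext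
    exact congrArg (fun t : LinearMap.ker (K.mkQ.domRestrict L) => (t.1.1 : M)) hxy
  omega

/-- generating a subspace over another one -/
lemma ex_span (L : Submodule (ZMod 2) M) : ∀ (m : ℕ) (A : Submodule (ZMod 2) M), A ≤ L →
    finrank (ZMod 2) L ≤ m + finrank (ZMod 2) A →
    ∃ w : Fin m → M, A ⊔ Submodule.span (ZMod 2) (Set.range w) = L := by
  intro m
  induction m with
  | zero =>
    intro A hA h
    refine ⟨fun i => i.elim0, ?_⟩
    have h1 : A = L := Submodule.eq_of_le_of_finrank_le hA (by omega)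
    rw [h1, Set.range_eq_empty, Submodule.span_empty, sup_bot_eq]
  | succ m ih =>
    intro A hA h
    by_cases hAL : A = L
    · subst hAL
      refine ⟨fun _ => 0, ?_⟩
      rw [sup_eq_left, Submodule.span_le]
      rintro _ ⟨i, rfl⟩
      exact A.zero_mem
    · have hlt : A < L := lt_of_le_of_ne hA hAL
      obtain ⟨v, hvL, hvA⟩ := SetLike.exists_of_lt hlt
      have hA' : A ⊔ Submodule.span (ZMod 2) {v} ≤ L := by
        refine sup_le hA ?_
        rw [Submodule.span_le]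
        intro x hx
        rw [Set.mem_singleton_iff.1 hx]
        exact hvL
      have hlt2 : A < A ⊔ Submodule.span (ZMod 2) {v} := by
        refine lt_of_le_of_ne le_sup_left (fun h => hvA ?_)
        rw [h]
        exact Submodule.mem_sup_right (Submodule.mem_span_singleton_self v)
      have h2 := Submodule.finrank_lt_finrank_of_lt hlt2
      obtain ⟨w, hw⟩ := ih (A ⊔ Submodule.span (ZMod 2) {v}) hA' (by omega)
      refine ⟨Fin.cons v w, ?_⟩
      rw [← hw, sup_assoc, ← Submodule.span_union, Fin.range_cons]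
      rfl

end gen

section codim

variable {V : Type} [AddCommGroup V] [Module (ZMod 2) V]

/-- the diagonal action of an operator -/
def act (Y : Module.End (ZMod 2) V) (j : ℕ) :
    ((Fin j → V) × (Fin j → V)) →ₗ[ZMod 2] ((Fin j → V) × (Fin j → V)) :=
  (pwT Y j).prodMap (pwT Y j)

lemma core_eq {j : ℕ} (Λ : Submodule (ZMod 2) ((Fin j → V) × (Fin j → V))) (Y : Module.End (ZMod 2) V) :
    core Λ (pwT Y j) = Λ ⊓ Λ.comap (act Y j) := rfl

lemma act_add (Y Z : Module.End (ZMod 2) V) (j : ℕ) (z : (Fin j → V) × (Fin j → V)) :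
    act (Y + Z) j z = act Y j z + act Z j z := rfl

lemma act_mul (Y Z : Module.End (ZMod 2) V) (j : ℕ) (z : (Fin j → V) × (Fin j → V)) :
    act (Y * Z) j z = act Y j (act Z j z) := rfl

lemma act_alg (r : ZMod 2) (j : ℕ) (z : (Fin j → V) × (Fin j → V)) :
    act (algebraMap (ZMod 2) (Module.End (ZMod 2) V) r) j z = r • z := rfl

/-- all operators have small codimension -/
lemma all_codim [Finite V] (ω : V →ₗ[ZMod 2] V →ₗ[ZMod 2] ZMod 2) (S : Set (Module.End (ZMod 2) V))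
    (hS : Algebra.adjoin (ZMod 2) S = ⊤) (Y : Module.End (ZMod 2) V) :
    ∃ C : ℕ, ∀ (j i : ℕ) (Λ : Submodule (ZMod 2) ((Fin j → V) × (Fin j → V))), Nst ω S j i Λ →
      finrank (ZMod 2) Λ ≤ C * i + finrank (ZMod 2) (core Λ (pwT Y j)) := by
  have hY : Y ∈ Algebra.adjoin (ZMod 2) S := by rw [hS]; trivial
  induction hY using Algebra.adjoin_induction with
  | mem X hX =>
    refine ⟨1, fun j i Λ h => ?_⟩
    have h1 := h.2 X hX
    rw [← h.1.2, Module.natCard_eq_pow_finrank (K := ZMod 2) (V := Λ),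
      Module.natCard_eq_pow_finrank (K := ZMod 2) (V := core Λ (pwT X j)), Nat.card_zmod,
      ← pow_add] at h1
    have h2 := (Nat.pow_le_pow_iff_right (by norm_num : 1 < 2)).1 h1
    omega
  | algebraMap r =>
    refine ⟨0, fun j i Λ h => ?_⟩
    have h1 : core Λ (pwT (algebraMap (ZMod 2) (Module.End (ZMod 2) V) r) j) = Λ := by
      rw [core_eq]
      refine inf_eq_left.2 (fun z hz => ?_)
      rw [Submodule.mem_comap, act_alg]
      exact Λ.smul_mem _ hz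
    rw [h1]
    omega
  | add Y Z _ _ hY hZ =>
    obtain ⟨a, ha⟩ := hY
    obtain ⟨b, hb⟩ := hZ
    refine ⟨a + b, fun j i Λ h => ?_⟩
    have h1 := fr_inf Λ (core Λ (pwT Y j)) (core Λ (pwT Z j)) inf_le_left inf_le_left _ _
      (ha j i Λ h) (hb j i Λ h)
    have h2 : core Λ (pwT Y j) ⊓ core Λ (pwT Z j) ≤ core Λ (pwT (Y + Z) j) := by
      rintro z ⟨⟨hz, hz1⟩, ⟨_, hz2⟩⟩
      refine ⟨hz, ?_⟩
      change act (Y + Z) j z ∈ Λ
      rw [act_add]
      exact Λ.add_mem hz1 hz2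
    have h3 := Submodule.finrank_mono h2
    rw [add_mul]
    omega
  | mul Y Z _ _ hY hZ =>
    obtain ⟨a, ha⟩ := hY
    obtain ⟨b, hb⟩ := hZ
    refine ⟨a + b, fun j i Λ h => ?_⟩
    have h1 := fr_pre (act Z j) Λ (core Λ (pwT Z j)) (core Λ (pwT Y j)) inf_le_right inf_le_left
    have h2 : core Λ (pwT Z j) ⊓ (core Λ (pwT Y j)).comap (act Z j) ≤ core Λ (pwT (Y * Z) j) := by
      rintro z ⟨⟨hz, hz1⟩, ⟨_, hz2⟩⟩
      refine ⟨hz, ?_⟩
      change act (Y * Z) j z ∈ Λ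
      rw [act_mul]
      exact hz2
    have h3 := Submodule.finrank_mono h2
    have h4 := ha j i Λ h
    have h5 := hb j i Λ h
    rw [add_mul]
    omega

end codim

section tens

variable {V : Type} [AddCommGroup V] [Module (ZMod 2) V]

/-- `v ⊗ u` -/
def tn (v : V) (j : ℕ) :
    ((Fin j → ZMod 2) × (Fin j → ZMod 2)) →ₗ[ZMod 2] ((Fin j → V) × (Fin j → V)) :=
  ((LinearMap.toSpanSingleton (ZMod 2) V v).compLeft (Fin j)).prodMap
    ((LinearMap.toSpanSingleton (ZMod 2) V v).compLeft (Fin j))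

/-- coordinates -/
noncomputable def cf (b : Basis (Fin 2) (ZMod 2) V) (β : Fin 2) (j : ℕ) :
    ((Fin j → V) × (Fin j → V)) →ₗ[ZMod 2] ((Fin j → ZMod 2) × (Fin j → ZMod 2)) :=
  ((b.coord β).compLeft (Fin j)).prodMap ((b.coord β).compLeft (Fin j))

/-- matrix units -/
noncomputable def Eu (b : Basis (Fin 2) (ZMod 2) V) (α β : Fin 2) : Module.End (ZMod 2) V :=
  (b.coord β).smulRight (b α)

lemma act_E (b : Basis (Fin 2) (ZMod 2) V) (α β : Fin 2) (j : ℕ) (z : (Fin j → V) × (Fin j → V)) :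
    act (Eu b α β) j z = tn (b α) j (cf b β j z) := rfl

lemma cf_tn_same (b : Basis (Fin 2) (ZMod 2) V) (α : Fin 2) (j : ℕ)
    (u : (Fin j → ZMod 2) × (Fin j → ZMod 2)) : cf b α j (tn (b α) j u) = u := by
  apply Prod.ext <;> funext i
  · change b.coord α (u.1 i • b α) = u.1 i
    simp
  · change b.coord α (u.2 i • b α) = u.2 i
    simp

lemma cf_tn_ne (b : Basis (Fin 2) (ZMod 2) V) (α β : Fin 2) (h : α ≠ β) (j : ℕ)
    (u : (Fin j → ZMod 2) × (Fin j → ZMod 2)) : cf b β j (tn (b α) j u) = 0 := by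
  apply Prod.ext <;> funext i
  · change b.coord β (u.1 i • b α) = 0
    simp [Finsupp.single_eq_of_ne h.symm]
  · change b.coord β (u.2 i • b α) = 0
    simp [Finsupp.single_eq_of_ne h.symm]

lemma sum_tn (b : Basis (Fin 2) (ZMod 2) V) (j : ℕ) (z : (Fin j → V) × (Fin j → V)) :
    tn (b 0) j (cf b 0 j z) + tn (b 1) j (cf b 1 j z) = z := by
  apply Prod.ext <;> funext i
  · change b.coord 0 (z.1 i) • b 0 + b.coord 1 (z.1 i) • b 1 = z.1 i
    have := b.sum_repr (z.1 i)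
    rw [Fin.sum_univ_two] at this
    exact this
  · change b.coord 0 (z.2 i) • b 0 + b.coord 1 (z.2 i) • b 1 = z.2 i
    have := b.sum_repr (z.2 i)
    rw [Fin.sum_univ_two] at this
    exact this

/-- the subspace `U` -/
noncomputable def UofL (b : Basis (Fin 2) (ZMod 2) V) {j : ℕ} (Λ : Submodule (ZMod 2) ((Fin j → V) × (Fin j → V))) :
    Submodule (ZMod 2) ((Fin j → ZMod 2) × (Fin j → ZMod 2)) :=
  Λ.comap (tn (b 0) j) ⊓ Λ.comap (tn (b 1) j)

/-- the subspace `V ⊗ U` -/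
noncomputable def LofU (b : Basis (Fin 2) (ZMod 2) V) {j : ℕ}
    (U : Submodule (ZMod 2) ((Fin j → ZMod 2) × (Fin j → ZMod 2))) :
    Submodule (ZMod 2) ((Fin j → V) × (Fin j → V)) :=
  U.comap (cf b 0 j) ⊓ U.comap (cf b 1 j)

lemma LofU_le (b : Basis (Fin 2) (ZMod 2) V) {j : ℕ}
    (Λ : Submodule (ZMod 2) ((Fin j → V) × (Fin j → V))) : LofU b (UofL b Λ) ≤ Λ := by
  rintro z ⟨⟨h1, _⟩, ⟨_, h2⟩⟩
  rw [← sum_tn b j z]
  exact Λ.add_mem h1 h2

lemma core_le (b : Basis (Fin 2) (ZMod 2) V) {j : ℕ}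
    (Λ : Submodule (ZMod 2) ((Fin j → V) × (Fin j → V))) :
    core Λ (pwT (Eu b 0 0) j) ⊓ core Λ (pwT (Eu b 1 0) j) ⊓
      (core Λ (pwT (Eu b 0 1) j) ⊓ core Λ (pwT (Eu b 1 1) j)) ≤ LofU b (UofL b Λ) := by
  rintro z ⟨⟨⟨_, h00⟩, ⟨_, h10⟩⟩, ⟨⟨_, h01⟩, ⟨_, h11⟩⟩⟩
  exact ⟨⟨h00, h10⟩, ⟨h01, h11⟩⟩

lemma finrank_LofU [Finite V] (b : Basis (Fin 2) (ZMod 2) V) {j : ℕ}
    (U : Submodule (ZMod 2) ((Fin j → ZMod 2) × (Fin j → ZMod 2))) :
    finrank (ZMod 2) (LofU b U) = 2 * finrank (ZMod 2) U := by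
  let g : (U × U) →ₗ[ZMod 2] ((Fin j → V) × (Fin j → V)) :=
    ((tn (b 0) j).comp U.subtype).coprod ((tn (b 1) j).comp U.subtype)
  have hg0 : ∀ x : U × U, cf b 0 j (g x) = x.1 := by
    intro x
    change cf b 0 j (tn (b 0) j x.1 + tn (b 1) j x.2) = x.1
    rw [map_add, cf_tn_same, cf_tn_ne b 1 0 (by decide), add_zero]
  have hg1 : ∀ x : U × U, cf b 1 j (g x) = x.2 := by
    intro x
    change cf b 1 j (tn (b 0) j x.1 + tn (b 1) j x.2) = x.2
    rw [map_add, cf_tn_same, cf_tn_ne b 0 1 (by decide), zero_add]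
  have hinj : Function.Injective g := by
    intro x y hxy
    apply Prod.ext
    · apply Subtype.ext
      rw [← hg0, ← hg0, hxy]
    · apply Subtype.ext
      rw [← hg1, ← hg1, hxy]
  have hr : LinearMap.range g = LofU b U := by
    ext z
    constructor
    · rintro ⟨x, rfl⟩
      refine ⟨?_, ?_⟩
      · change cf b 0 j (g x) ∈ U
        rw [hg0]; exact x.1.2
      · change cf b 1 j (g x) ∈ U
        rw [hg1]; exact x.2.2
    · rintro ⟨h0, h1⟩
      exact ⟨(⟨_, h0⟩, ⟨_, h1⟩), sum_tn b j z⟩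
  rw [← hr, LinearMap.finrank_range_of_inj hinj, Module.finrank_prod]
  ring

/-- the dot product -/
noncomputable def dt : ZMod 2 →ₗ[ZMod 2] ZMod 2 →ₗ[ZMod 2] ZMod 2 := LinearMap.mul (ZMod 2) (ZMod 2)

lemma pol_tn (ω : V →ₗ[ZMod 2] V →ₗ[ZMod 2] ZMod 2) (hr : ∀ x, ω x x = 0) (j : ℕ) (v v' : V)
    (u u' : (Fin j → ZMod 2) × (Fin j → ZMod 2)) :
    pol (pwf ω j) (tn v j u) (tn v' j u') = ω v v' * pol (pwf dt j) u u' := by
  rw [pol_apply, pol_apply, pwf_apply, pwf_apply, pwf_apply, pwf_apply, mul_add, mul_sum, mul_sum]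
  congr 1
  · refine sum_congr rfl (fun i _ => ?_)
    change ω (u.2 i • v) (u'.1 i • v') = ω v v' * (u.2 i * u'.1 i)
    rw [map_smul, map_smul, LinearMap.smul_apply, smul_eq_mul, smul_eq_mul]
    ring
  · refine sum_congr rfl (fun i _ => ?_)
    change ω (u'.2 i • v') (u.1 i • v) = ω v v' * (u'.2 i * u.1 i)
    rw [map_smul, map_smul, LinearMap.smul_apply, smul_eq_mul, smul_eq_mul, alt_symm ω hr v' v]
    ring

lemma dot_symm (j : ℕ) (x y : Fin j → ZMod 2) : pwf dt j x y = pwf dt j y x := by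
  rw [pwf_apply, pwf_apply]
  exact sum_congr rfl (fun i _ => mul_comm _ _)

lemma dot_nd (j : ℕ) (x : Fin j → ZMod 2) (h : ∀ y, pwf dt j x y = 0) : x = 0 := by
  refine pwf_nd dt (fun x hx => ?_) j x h
  have h1 : x * 1 = 0 := hx 1
  rwa [mul_one] at h1

lemma pol_nd_symm {H : Type} [AddCommGroup H] [Module (ZMod 2) H]
    (ω : H →ₗ[ZMod 2] H →ₗ[ZMod 2] ZMod 2) (hs : ∀ x y, ω x y = ω y x)
    (hnd : ∀ x, (∀ y, ω x y = 0) → x = 0) (z : H × H) (h : ∀ z', pol ω z z' = 0) : z = 0 := by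
  have h1 : z.2 = 0 := by
    apply hnd
    intro y
    have := h (y, 0)
    rw [pol_apply] at this
    simpa using this
  have h2 : z.1 = 0 := by
    apply hnd
    intro y
    have := h (0, y)
    rw [pol_apply] at this
    rw [hs]
    simpa using this
  exact Prod.ext h2 h1

lemma basis_pair (ω : V →ₗ[ZMod 2] V →ₗ[ZMod 2] ZMod 2) (hr : ∀ x, ω x x = 0)
    (hnd : ∀ x, (∀ y, ω x y = 0) → x = 0) (b : Basis (Fin 2) (ZMod 2) V) : ω (b 0) (b 1) ≠ 0 := by
  intro h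
  have h1 : b 0 = 0 := by
    apply hnd
    intro y
    rw [← b.sum_repr y, Fin.sum_univ_two, map_add, map_smul, map_smul, hr, h, smul_zero, smul_zero,
      add_zero]
  exact b.ne_zero 0 h1

lemma UofL_iso (ω : V →ₗ[ZMod 2] V →ₗ[ZMod 2] ZMod 2) (hr : ∀ x, ω x x = 0)
    (hnd : ∀ x, (∀ y, ω x y = 0) → x = 0) (b : Basis (Fin 2) (ZMod 2) V) {j : ℕ}
    (Λ : Submodule (ZMod 2) ((Fin j → V) × (Fin j → V))) (h : Mx (pwf ω j) Λ) :
    ∀ x ∈ UofL b Λ, ∀ y ∈ UofL b Λ, pol (pwf dt j) x y = 0 := by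
  intro x hx y hy
  have h1 := mx_iso _ Λ h _ hx.1 _ hy.2
  rw [pol_tn ω hr] at h1
  exact (mul_eq_zero.1 h1).resolve_left (basis_pair ω hr hnd b)

end tens

lemma arith1 (j a m : ℕ) (h1 : a ≤ j) (h2 : 2 * j ≤ 2 * a + m) :
    2 * (2 * j) * a ≤ (j ^ 2 + j * m + 3 * j) + 3 * (a * (a - 1)) := by
  have h3 : 3 * (a * (a - 1)) + 3 * a = 3 * a ^ 2 := by
    rcases Nat.eq_zero_or_pos a with rfl | ha
    · simp
    · obtain ⟨t, rfl⟩ : ∃ t, a = t + 1 := ⟨a - 1, by omega⟩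
      have : t + 1 - 1 = t := by omega
      rw [this]; ring
  obtain ⟨d, rfl⟩ : ∃ d, j = a + d := ⟨j - a, by omega⟩
  have h4 : 2 * d ≤ m := by omega
  have h5 : (a + d) * (2 * d) ≤ (a + d) * m := Nat.mul_le_mul_left _ h4
  nlinarith

theorem t_CNT2 (iso : S_ISO) : S_CNT2 := by
  intro V _ _ _ ω hP S hS
  classical
  let b : Basis (Fin 2) (ZMod 2) V := finBasisOfFinrankEq (ZMod 2) V hP.dim
  obtain ⟨C00, h00⟩ := all_codim ω S hS (Eu b 0 0)
  obtain ⟨C10, h10⟩ := all_codim ω S hS (Eu b 1 0)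
  obtain ⟨C01, h01⟩ := all_codim ω S hS (Eu b 0 1)
  obtain ⟨C11, h11⟩ := all_codim ω S hS (Eu b 1 1)
  obtain ⟨C1, hC1⟩ : ∃ C1, C1 = C00 + C10 + C01 + C11 := ⟨_, rfl⟩
  refine ⟨9 * C1 + 5, fun j i => ?_⟩
  obtain ⟨m, hm⟩ : ∃ m, m = C1 * i := ⟨_, rfl⟩
  have hfH := finrank_pw ω hP j
  have key : ∀ Λ : Submodule (ZMod 2) ((Fin j → V) × (Fin j → V)), Nst ω S j i Λ →
      finrank (ZMod 2) Λ ≤ m + finrank (ZMod 2) (LofU b (UofL b Λ)) ∧
      finrank (ZMod 2) (UofL b Λ) ≤ j ∧ 2 * j ≤ 2 * finrank (ZMod 2) (UofL b Λ) + m := by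
    intro Λ hΛ
    have e1 := fr_inf Λ (core Λ (pwT (Eu b 0 0) j)) (core Λ (pwT (Eu b 1 0) j)) inf_le_left inf_le_left
      _ _ (h00 j i Λ hΛ) (h10 j i Λ hΛ)
    have e2 := fr_inf Λ (core Λ (pwT (Eu b 0 1) j)) (core Λ (pwT (Eu b 1 1) j)) inf_le_left inf_le_left
      _ _ (h01 j i Λ hΛ) (h11 j i Λ hΛ)
    have e3 := fr_inf Λ (core Λ (pwT (Eu b 0 0) j) ⊓ core Λ (pwT (Eu b 1 0) j))
      (core Λ (pwT (Eu b 0 1) j) ⊓ core Λ (pwT (Eu b 1 1) j))
      (inf_le_left.trans inf_le_left) (inf_le_left.trans inf_le_left) _ _ e1 e2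
    have e4 := Submodule.finrank_mono (core_le b Λ)
    have e5 := Submodule.finrank_mono (LofU_le b Λ)
    have e6 := finrank_LofU b (UofL b Λ)
    have e7 := mx_finrank _ Λ hΛ.1
    rw [hfH] at e7
    have e8 : m = C00 * i + C10 * i + (C01 * i + C11 * i) := by rw [hm, hC1]; ring
    refine ⟨by omega, by omega, by omega⟩
  -- the generators over `V ⊗ U`
  have hw : ∀ Λ : {Λ : Submodule (ZMod 2) ((Fin j → V) × (Fin j → V)) // Nst ω S j i Λ},
      ∃ w : Fin m → (Fin j → V) × (Fin j → V),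
        LofU b (UofL b Λ.1) ⊔ Submodule.span (ZMod 2) (Set.range w) = Λ.1 := by
    intro Λ
    exact ex_span Λ.1 m _ (LofU_le b Λ.1) (key Λ.1 Λ.2).1
  choose w hw using hw
  let T : Fin (j + 1) → Type := fun a =>
    {U : Submodule (ZMod 2) ((Fin j → ZMod 2) × (Fin j → ZMod 2)) //
      (∀ x ∈ U, ∀ y ∈ U, pol (pwf dt j) x y = 0) ∧ finrank (ZMod 2) U = (a : ℕ) ∧
        2 * j ≤ 2 * (a : ℕ) + m}
  have hTf : ∀ a, Finite (T a) := by
    intro a
    have : Finite (Submodule (ZMod 2) ((Fin j → ZMod 2) × (Fin j → ZMod 2))) := inferInstance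
    show Finite {U : Submodule (ZMod 2) ((Fin j → ZMod 2) × (Fin j → ZMod 2)) //
      (∀ x ∈ U, ∀ y ∈ U, pol (pwf dt j) x y = 0) ∧ finrank (ZMod 2) U = (a : ℕ) ∧
        2 * j ≤ 2 * (a : ℕ) + m}
    infer_instance
  let f : {Λ : Submodule (ZMod 2) ((Fin j → V) × (Fin j → V)) // Nst ω S j i Λ} →
      (Σ a : Fin (j + 1), T a) × (Fin m → (Fin j → V) × (Fin j → V)) := fun Λ =>
    (⟨⟨finrank (ZMod 2) (UofL b Λ.1), Nat.lt_succ_of_le (key Λ.1 Λ.2).2.1⟩,
      ⟨UofL b Λ.1, UofL_iso ω hP.alt hP.nd b Λ.1 Λ.2.1, rfl, (key Λ.1 Λ.2).2.2⟩⟩, w Λ)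
  have hf : Function.Injective f := by
    intro Λ Λ' h
    have h1 : UofL b Λ.1 = UofL b Λ'.1 := congrArg (fun t => t.1.2.1) h
    have h2 : w Λ = w Λ' := congrArg Prod.snd h
    apply Subtype.ext
    rw [← hw Λ, ← hw Λ', h1, h2]
  have h1 := Nat.card_le_card_of_injective f hf
  obtain ⟨E, hE⟩ : ∃ E, E = j ^ 2 + j * m + 3 * j := ⟨_, rfl⟩
  have hTc : ∀ a : Fin (j + 1), Nat.card (T a) ≤ Nat.sqrt (2 ^ E) := by
    intro a
    by_cases ha : 2 * j ≤ 2 * (a : ℕ) + m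
    · have haj : (a : ℕ) ≤ j := by have := a.2; omega
      have hfD : finrank (ZMod 2) ((Fin j → ZMod 2) × (Fin j → ZMod 2)) = 2 * j := by
        rw [Module.finrank_prod, Module.finrank_fintype_fun_eq_card, Fintype.card_fin]
        ring
      have h2 := iso_sq iso ((Fin j → ZMod 2) × (Fin j → ZMod 2)) (pol (pwf dt j)) (pol_self _)
        (fun x hx => pol_nd_symm _ (dot_symm j) (dot_nd j) x hx) (a : ℕ) (by rw [hfD]; omega)
      rw [hfD] at h2
      have h3 : Nat.card (T a) ≤ Nat.card {Λ : Submodule (ZMod 2) ((Fin j → ZMod 2) × (Fin j → ZMod 2)) //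
          (∀ x ∈ Λ, ∀ y ∈ Λ, pol (pwf dt j) x y = 0) ∧ finrank (ZMod 2) Λ = (a : ℕ)} := by
        refine Nat.card_le_card_of_injective (fun U => ⟨U.1, U.2.1, U.2.2.1⟩) ?_
        intro x y hxy
        exact Subtype.ext (congrArg (fun t => t.1) hxy)
      rw [Nat.le_sqrt']
      refine (Nat.pow_le_pow_left h3 2).trans ?_
      have h4 := arith1 j a m haj ha
      rw [← hE] at h4
      have h5 := h2.trans (Nat.pow_le_pow_right (by norm_num : 0 < 2) h4)
      rw [pow_add] at h5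
      exact Nat.le_of_mul_le_mul_right h5 (by positivity)
    · have : IsEmpty (T a) := ⟨fun U => ha U.2.2.2⟩
      rw [Nat.card_of_isEmpty]
      exact Nat.zero_le _
  have hfU : finrank (ZMod 2) ((Fin j → V) × (Fin j → V)) = 4 * j := by
    rw [Module.finrank_prod, hfH]; ring
  have hcU : Nat.card ((Fin j → V) × (Fin j → V)) = 2 ^ (4 * j) := by
    rw [Module.natCard_eq_pow_finrank (K := ZMod 2), Nat.card_zmod, hfU]
  rw [Nat.card_prod, Nat.card_sigma, Nat.card_fun, Nat.card_eq_fintype_card (α := Fin m),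
    Fintype.card_fin, hcU, ← pow_mul] at h1
  have h2 : ∑ a : Fin (j + 1), Nat.card (T a) ≤ (j + 1) * Nat.sqrt (2 ^ E) := by
    refine (Finset.sum_le_sum (fun a _ => hTc a)).trans (le_of_eq ?_)
    rw [sum_const, card_univ, Fintype.card_fin, smul_eq_mul]
  have h3 : j + 1 ≤ 2 ^ j := Nat.lt_two_pow_self
  have h4 : Nat.card {Λ : Submodule (ZMod 2) ((Fin j → V) × (Fin j → V)) // Nst ω S j i Λ} ≤
      2 ^ j * Nat.sqrt (2 ^ E) * 2 ^ (4 * j * m) :=
    h1.trans (Nat.mul_le_mul_right _ (h2.trans (Nat.mul_le_mul_right _ h3)))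
  refine (Nat.pow_le_pow_left h4 2).trans ?_
  rw [mul_pow, mul_pow]
  have h5 : Nat.sqrt (2 ^ E) ^ 2 ≤ 2 ^ E := Nat.sqrt_le' _
  refine (Nat.mul_le_mul_right _ (Nat.mul_le_mul_left _ h5)).trans ?_
  rw [← pow_mul, ← pow_mul, ← pow_add, ← pow_add]
  apply Nat.pow_le_pow_right (by norm_num)
  rw [hE, hm]
  have h6 : (9 * C1 + 5) * (i + 1) * (j + 1) =
      j * 2 + (j * (C1 * i) + 3 * j) + 4 * j * (C1 * i) * 2 + (9 * C1 * i + 5 * (j * i) + 5 * i +
        9 * C1 * j + 9 * C1 + 5) := by ring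
  rw [h6]
  omega

end Pool.Agent.Q16.MX
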