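import Pool.Agent.Q44.MX.Stm

set_option autoImplicit false

/-!
# Project MX: jobs ISO and CNT0
-/

namespace Pool.Agent.Q16.MX

open Finset Module Q44.MX

section iso

variable {W : Type} [AddCommGroup W] [Module (ZMod 2) W] [Finite W]
  (B : W →ₗ[ZMod 2] W →ₗ[ZMod 2] ZMod 2)

/-- independent tuples of pairwise orthogonal vectors -/
def Tp (a : ℕ) : Type :=
  {s : Fin a → W // LinearIndependent (ZMod 2) s ∧ ∀ i j, B (s i) (s j) = 0}

instance (a : ℕ) : Finite (Tp B a) := by unfold Tp; infer_instance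

/-- the number of the vectors orthogonal to an independent tuple -/
lemma card_orth (hr : ∀ x, B x x = 0) (hnd : ∀ x, (∀ y, B x y = 0) → x = 0) (a : ℕ) (s : Fin a → W)
    (hs : LinearIndependent (ZMod 2) s) :
    Nat.card {y : W // ∀ i, B (s i) y = 0} = 2 ^ (finrank (ZMod 2) W - a) := by
  have hsym : ∀ x y, B x y = B y x := by
    intro x y
    have h1 := hr (x + y)
    simp only [map_add, LinearMap.add_apply, hr, zero_add, add_zero] at h1
    have h2 : B y x + B x y = 0 := h1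
    have h3 : B y x = - B x y := eq_neg_of_add_eq_zero_left h2
    rw [h3, CharTwo.neg_eq]
  have hN : LinearMap.BilinForm.Nondegenerate B := by
    refine ⟨fun x hx => hnd x hx, fun y hy => hnd y (fun x => ?_)⟩
    rw [hsym]; exact hy x
  have h1 := LinearMap.BilinForm.finrank_orthogonal hN (Submodule.span (ZMod 2) (Set.range s))
  rw [finrank_span_eq_card hs, Fintype.card_fin] at h1
  have e : {y : W // ∀ i, B (s i) y = 0} ≃
      LinearMap.BilinForm.orthogonal B (Submodule.span (ZMod 2) (Set.range s)) := by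
    refine Equiv.subtypeEquivRight (fun y => ?_)
    rw [LinearMap.BilinForm.mem_orthogonal_iff]
    constructor
    · intro h n hn
      change B n y = 0
      induction hn using Submodule.span_induction with
      | mem x hx => obtain ⟨i, rfl⟩ := hx; exact h i
      | zero => simp
      | add x y' _ _ h1 h2 => rw [map_add, LinearMap.add_apply, h1, h2, add_zero]
      | smul c x _ h1 => rw [map_smul, LinearMap.smul_apply, h1, smul_zero]
    · intro h i
      exact h (s i) (Submodule.subset_span ⟨i, rfl⟩)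
  rw [Nat.card_congr e, Module.natCard_eq_pow_finrank (K := ZMod 2), h1, Nat.card_zmod]

lemma card_Tp (hr : ∀ x, B x x = 0) (hnd : ∀ x, (∀ y, B x y = 0) → x = 0) (a : ℕ) :
    Nat.card (Tp B a) ≤ 2 ^ (∑ i ∈ range a, (finrank (ZMod 2) W - i)) := by
  induction a with
  | zero =>
    have : Subsingleton (Tp B 0) := by
      refine ⟨fun s t => Subtype.ext (Subsingleton.elim _ _)⟩
    simp only [range_zero, sum_empty, pow_zero]
    exact Finite.card_le_one_iff_subsingleton.2 this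
  | succ a ih =>
    classical
    have : Fintype (Tp B a) := Fintype.ofFinite _
    let f : Tp B (a + 1) → Σ s : Tp B a, {y : W // ∀ i, B (s.1 i) y = 0} := fun s =>
      ⟨⟨fun i => s.1 i.castSucc, s.2.1.comp _ (Fin.castSucc_injective a), fun i j => s.2.2 _ _⟩,
        ⟨s.1 (Fin.last a), fun i => s.2.2 _ _⟩⟩
    have hf : Function.Injective f := by
      intro s t hst
      have h1 : (f s).1.1 = (f t).1.1 := by rw [hst]
      have h2 : ((f s).2 : W) = ((f t).2 : W) := by rw [hst]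
      apply Subtype.ext
      funext i
      refine Fin.lastCases ?_ (fun i => ?_) i
      · exact h2
      · exact congrFun h1 i
    have h3 := Nat.card_le_card_of_injective f hf
    refine h3.trans ?_
    rw [Nat.card_sigma, sum_range_succ, pow_add]
    rw [Finset.sum_congr rfl (fun s _ => card_orth B hr hnd a s.1 s.2.1), Finset.sum_const,
      smul_eq_mul, Finset.card_univ, ← Nat.card_eq_fintype_card]
    exact Nat.mul_le_mul_right _ ih

theorem t_ISO : S_ISO := by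
  intro W _ _ _ B hr hnd a ha
  classical
  have hq : Fintype.card (ZMod 2) = 2 := rfl
  let I := {Λ : Submodule (ZMod 2) W // (∀ x ∈ Λ, ∀ y ∈ Λ, B x y = 0) ∧ finrank (ZMod 2) Λ = a}
  have : Finite I := by
    have : Finite (Submodule (ZMod 2) W) := inferInstance
    infer_instance
  have : Fintype I := Fintype.ofFinite _
  have hc : ∀ Λ : I, Nat.card {s : Fin a → Λ.1 // LinearIndependent (ZMod 2) s} =
      ∏ i ∈ range a, (2 ^ a - 2 ^ i) := by
    intro Λ
    have h1 := card_linearIndependent (K := ZMod 2) (V := Λ.1) (k := a) (by rw [Λ.2.2])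
    rw [h1, Λ.2.2, hq, Finset.prod_range]
  let f : (Σ Λ : I, {s : Fin a → Λ.1 // LinearIndependent (ZMod 2) s}) → Tp B a := fun s =>
    ⟨fun i => ((s.2.1 i : s.1.1) : W), by
      have := s.2.2.map' (Submodule.subtype s.1.1) (Submodule.ker_subtype _)
      exact this, fun i j => s.1.2.1 _ (s.2.1 i).2 _ (s.2.1 j).2⟩
  have hsp : ∀ s : (Σ Λ : I, {s : Fin a → Λ.1 // LinearIndependent (ZMod 2) s}),
      Submodule.span (ZMod 2) (Set.range (f s).1) = s.1.1 := by
    intro s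
    apply Submodule.eq_of_le_of_finrank_eq
    · rw [Submodule.span_le]
      rintro _ ⟨i, rfl⟩
      exact (s.2.1 i).2
    · rw [finrank_span_eq_card (f s).2.1, Fintype.card_fin, s.1.2.2]
  have hf : Function.Injective f := by
    intro s t hst
    obtain ⟨⟨Λ, hΛ⟩, ⟨s, hs⟩⟩ := s
    obtain ⟨⟨Λ', hΛ'⟩, ⟨t, ht⟩⟩ := t
    have h1 := hsp ⟨⟨Λ, hΛ⟩, ⟨s, hs⟩⟩
    rw [hst, hsp] at h1
    simp only at h1
    subst h1
    have h2 : ∀ i, ((s i : Λ') : W) = ((t i : Λ') : W) := by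
      intro i
      exact congrFun (congrArg Subtype.val hst) i
    have h3 : s = t := funext fun i => Subtype.ext (h2 i)
    subst h3
    rfl
  have h3 := Nat.card_le_card_of_injective f hf
  rw [Nat.card_sigma, Finset.sum_congr rfl (fun Λ _ => hc Λ), Finset.sum_const, smul_eq_mul,
    Finset.card_univ, ← Nat.card_eq_fintype_card] at h3
  exact h3.trans (card_Tp B hr hnd a)

end iso

/-- the square of the number of the isotropic subspaces -/
lemma iso_sq (iso : S_ISO) (W : Type) [AddCommGroup W] [Module (ZMod 2) W] [Finite W]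
    (B : W →ₗ[ZMod 2] W →ₗ[ZMod 2] ZMod 2) (hr : ∀ x, B x x = 0)
    (hnd : ∀ x, (∀ y, B x y = 0) → x = 0) (a : ℕ) (ha : a ≤ finrank (ZMod 2) W) :
    Nat.card {Λ : Submodule (ZMod 2) W // (∀ x ∈ Λ, ∀ y ∈ Λ, B x y = 0) ∧ finrank (ZMod 2) Λ = a} ^ 2 *
      2 ^ (3 * (a * (a - 1))) ≤ 2 ^ (2 * finrank (ZMod 2) W * a) := by
  have h1 := iso W B hr hnd a ha
  obtain ⟨n, hn⟩ : ∃ n, n = Nat.card {Λ : Submodule (ZMod 2) W //
    (∀ x ∈ Λ, ∀ y ∈ Λ, B x y = 0) ∧ finrank (ZMod 2) Λ = a} := ⟨_, rfl⟩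
  rw [← hn] at h1 ⊢
  obtain ⟨N, hN⟩ : ∃ N, N = finrank (ZMod 2) W := ⟨_, rfl⟩
  rw [← hN] at h1 ha ⊢
  have h2 : 2 ^ (a * (a - 1)) ≤ ∏ i ∈ range a, (2 ^ a - 2 ^ i) := by
    have h3 : ∀ i ∈ range a, 2 ^ (a - 1) ≤ 2 ^ a - 2 ^ i := by
      intro i hi
      have hi' := mem_range.1 hi
      have h4 : 2 ^ i ≤ 2 ^ (a - 1) := Nat.pow_le_pow_right (by norm_num) (by omega)
      have h5 : 2 ^ a = 2 ^ (a - 1) * 2 := by
        rw [← pow_succ]
        congr 1
        omega
      omega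
    have h6 := Finset.pow_card_le_prod (range a) (fun i => 2 ^ a - 2 ^ i) (2 ^ (a - 1)) h3
    rw [card_range, ← pow_mul, mul_comm (a - 1) a] at h6
    exact h6
  have h3 : n * 2 ^ (a * (a - 1)) ≤ 2 ^ (∑ i ∈ range a, (N - i)) :=
    (Nat.mul_le_mul_left _ h2).trans h1
  have h4 : ∑ i ∈ range a, (N - i) + ∑ i ∈ range a, i = a * N := by
    rw [← sum_add_distrib, Finset.sum_congr rfl (fun i hi => by
      have := mem_range.1 hi
      show N - i + i = N
      omega), sum_const, card_range, smul_eq_mul]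
  have h5 : (∑ i ∈ range a, i) * 2 = a * (a - 1) := Finset.sum_range_id_mul_two a
  have h6 : (∑ i ∈ range a, (N - i)) * 2 + a * (a - 1) = 2 * N * a := by
    have h7 : 2 * N * a = (a * N) * 2 := by ring
    rw [h7]
    omega
  calc n ^ 2 * 2 ^ (3 * (a * (a - 1))) = (n * 2 ^ (a * (a - 1))) ^ 2 * 2 ^ (a * (a - 1)) := by
        rw [mul_pow, ← pow_mul, mul_assoc, ← pow_add]
        congr 2
        ring
    _ ≤ (2 ^ (∑ i ∈ range a, (N - i))) ^ 2 * 2 ^ (a * (a - 1)) :=
        Nat.mul_le_mul_right _ (Nat.pow_le_pow_left h3 2)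
    _ = 2 ^ (2 * N * a) := by rw [← pow_mul, ← pow_add, h6]

section polar

variable {H : Type} [AddCommGroup H] [Module (ZMod 2) H]

/-- the polar form -/
noncomputable def pol (ω : H →ₗ[ZMod 2] H →ₗ[ZMod 2] ZMod 2) :
    (H × H) →ₗ[ZMod 2] (H × H) →ₗ[ZMod 2] ZMod 2 :=
  ω.compl₁₂ (LinearMap.snd (ZMod 2) H H) (LinearMap.fst (ZMod 2) H H) +
    (ω.compl₁₂ (LinearMap.snd (ZMod 2) H H) (LinearMap.fst (ZMod 2) H H)).flip

lemma pol_apply (ω : H →ₗ[ZMod 2] H →ₗ[ZMod 2] ZMod 2) (z z' : H × H) :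
    pol ω z z' = ω z.2 z'.1 + ω z'.2 z.1 := rfl

lemma pol_self (ω : H →ₗ[ZMod 2] H →ₗ[ZMod 2] ZMod 2) (z : H × H) : pol ω z z = 0 := by
  rw [pol_apply]; exact CharTwo.add_self_eq_zero _

lemma alt_symm (ω : H →ₗ[ZMod 2] H →ₗ[ZMod 2] ZMod 2) (hr : ∀ x, ω x x = 0) (x y : H) :
    ω x y = ω y x := by
  have h1 := hr (x + y)
  simp only [map_add, LinearMap.add_apply, hr, zero_add, add_zero] at h1
  have h3 : ω y x = - ω x y := eq_neg_of_add_eq_zero_left h1
  rw [h3, CharTwo.neg_eq]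

lemma pol_nd (ω : H →ₗ[ZMod 2] H →ₗ[ZMod 2] ZMod 2) (hr : ∀ x, ω x x = 0)
    (hnd : ∀ x, (∀ y, ω x y = 0) → x = 0) (z : H × H) (h : ∀ z', pol ω z z' = 0) : z = 0 := by
  have h1 : z.2 = 0 := by
    apply hnd
    intro y
    have := h (y, 0)
    rw [pol_apply] at this
    simpa using this
  have h2 : z.1 = 0 := by
    apply hnd
    intro y
    have := h (0, y)
    rw [pol_apply] at this
    rw [alt_symm ω hr]
    simpa using this
  exact Prod.ext h2 h1

lemma mx_iso (ω : H →ₗ[ZMod 2] H →ₗ[ZMod 2] ZMod 2) (Λ : Submodule (ZMod 2) (H × H))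
    (h : Mx ω Λ) : ∀ x ∈ Λ, ∀ y ∈ Λ, pol ω x y = 0 := by
  intro x hx y hy
  have h1 := h.1 (x + y) (Λ.add_mem hx hy)
  have h2 := h.1 x hx
  have h3 := h.1 y hy
  simp only [Prod.snd_add, Prod.fst_add, map_add, LinearMap.add_apply, h2, h3, zero_add,
    add_zero] at h1
  rw [pol_apply, add_comm]
  exact h1

lemma mx_finrank [Finite H] (ω : H →ₗ[ZMod 2] H →ₗ[ZMod 2] ZMod 2)
    (Λ : Submodule (ZMod 2) (H × H)) (h : Mx ω Λ) : finrank (ZMod 2) Λ = finrank (ZMod 2) H := by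
  have h1 := h.2
  rw [Module.natCard_eq_pow_finrank (K := ZMod 2) (V := Λ),
    Module.natCard_eq_pow_finrank (K := ZMod 2) (V := H), Nat.card_zmod] at h1
  exact Nat.pow_right_injective le_rfl h1

end polar

section pw

variable {V : Type} [AddCommGroup V] [Module (ZMod 2) V]

lemma pwf_apply (ω : V →ₗ[ZMod 2] V →ₗ[ZMod 2] ZMod 2) (j : ℕ) (x y : Fin j → V) :
    pwf ω j x y = ∑ i, ω (x i) (y i) := by
  simp [pwf, LinearMap.sum_apply]

lemma pwf_alt (ω : V →ₗ[ZMod 2] V →ₗ[ZMod 2] ZMod 2) (hr : ∀ x, ω x x = 0) (j : ℕ)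
    (x : Fin j → V) : pwf ω j x x = 0 := by
  rw [pwf_apply]
  exact sum_eq_zero (fun i _ => hr _)

lemma pwf_nd (ω : V →ₗ[ZMod 2] V →ₗ[ZMod 2] ZMod 2) (hnd : ∀ x, (∀ y, ω x y = 0) → x = 0) (j : ℕ)
    (x : Fin j → V) (h : ∀ y, pwf ω j x y = 0) : x = 0 := by
  classical
  funext i
  apply hnd
  intro y
  have h1 := h (Pi.single i y)
  rw [pwf_apply, Finset.sum_eq_single i] at h1
  · simpa using h1
  · intro b _ hb
    rw [Pi.single_eq_of_ne hb, map_zero]
  · intro h; exact absurd (mem_univ _) h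

lemma finrank_pw (ω : V →ₗ[ZMod 2] V →ₗ[ZMod 2] ZMod 2) [Finite V] (hP : Pl ω) (j : ℕ) :
    finrank (ZMod 2) (Fin j → V) = 2 * j := by
  rw [Module.finrank_pi_fintype]
  simp only [hP.dim, sum_const, card_univ, Fintype.card_fin, smul_eq_mul]
  ring

end pw

theorem t_CNT0 (iso : S_ISO) : S_CNT0 := by
  intro V _ _ _ ω hP
  refine ⟨6, fun j => ?_⟩
  classical
  have hf := finrank_pw ω hP j
  have hf2 : finrank (ZMod 2) ((Fin j → V) × (Fin j → V)) = 4 * j := by
    rw [Module.finrank_prod, hf]; ring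
  have h1 := iso_sq iso ((Fin j → V) × (Fin j → V)) (pol (pwf ω j)) (pol_self _)
    (fun x hx => pol_nd _ (pwf_alt ω hP.alt j) (fun x hx => pwf_nd ω hP.nd j x hx) x hx) (2 * j)
    (by rw [hf2]; omega)
  rw [hf2] at h1
  have h2 : Nat.card {Λ : Submodule (ZMod 2) ((Fin j → V) × (Fin j → V)) // Mx (pwf ω j) Λ} ≤
      Nat.card {Λ : Submodule (ZMod 2) ((Fin j → V) × (Fin j → V)) //
        (∀ x ∈ Λ, ∀ y ∈ Λ, pol (pwf ω j) x y = 0) ∧ finrank (ZMod 2) Λ = 2 * j} := by
    refine Nat.card_le_card_of_injective (fun Λ => ⟨Λ.1, mx_iso _ _ Λ.2, ?_⟩) ?_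
    · rw [mx_finrank _ _ Λ.2, hf]
    · intro a b hab
      exact Subtype.ext (congrArg (fun t => t.1) hab)
  have h3 : 2 * (4 * j) * (2 * j) ≤ (4 * j ^ 2 + 6 * (j + 1)) + 3 * (2 * j * (2 * j - 1)) := by
    rcases Nat.eq_zero_or_pos j with rfl | hj
    · simp
    · obtain ⟨m, rfl⟩ : ∃ m, j = m + 1 := ⟨j - 1, by omega⟩
      have : 2 * (m + 1) - 1 = 2 * m + 1 := by omega
      rw [this]
      ring_nf
      omega
  have h4 : Nat.card {Λ : Submodule (ZMod 2) ((Fin j → V) × (Fin j → V)) // Mx (pwf ω j) Λ} ^ 2 *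
      2 ^ (3 * (2 * j * (2 * j - 1))) ≤
      2 ^ (4 * j ^ 2 + 6 * (j + 1)) * 2 ^ (3 * (2 * j * (2 * j - 1))) := by
    refine (Nat.mul_le_mul_right _ (Nat.pow_le_pow_left h2 2)).trans (h1.trans ?_)
    rw [← pow_add]
    exact Nat.pow_le_pow_right (by norm_num) h3
  exact Nat.le_of_mul_le_mul_right h4 (by positivity)

end Pool.Agent.Q16.MX
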